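import Pool.Agent.PJC.Stmts

/-!
# Row FIN of squad PJC: the contradiction
-/

set_option autoImplicit false

namespace Pool.Agent.PJC.H5

open Pool.Agent.PJC

theorem fin (htig : TigStmt) (havg : AvgStmt) (hpai : PaiStmt) (hprj : PrjStmt) (hnuc : NucStmt)
    (hsec : SecStmt) (hhcv : HcvStmt) (hhub : HubStmt) (hsml : SmlStmt) : FinStmt := by
  intro n s r S R d hn hd hd' hs hr hc
  obtain ⟨η, hη⟩ : ∃ η : ℝ, η = 1 / 10 ^ 30 := ⟨_, rfl⟩
  rw [← hη] at hd' hs hr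
  have hη0 : 0 < η := by rw [hη]; positivity
  have hηs : η ≤ 1 / 10 ^ 30 := hη.le
  have hη1 : η ≤ 1 / 10 := hηs.trans (by norm_num)
  obtain ⟨K, hK⟩ : ∃ K : ℝ, K = 10 ^ 14 := ⟨_, rfl⟩
  have hK1 : 1 ≤ K := by rw [hK]; norm_num
  have hK0 : 0 ≤ K := by linarith
  have hn0 : (4 : ℝ) ≤ n := by exact_mod_cast hn
  have hn1 : 1 ≤ n := by omega
  have ws := hs.wt
  have wr := hr.wt
  obtain ⟨P, hP, hP1, hP2⟩ := havg n s S η d K hn hη0 hη1 hd hd' hs hK1
  obtain ⟨Q, hQ, hQ1, hQ2⟩ := havg n r R η d K hn hη0 hη1 hd hd' hr hK1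
  have hKη : K * η ≤ 1 / 10 ^ 16 := by
    calc K * η ≤ 10 ^ 14 * (1 / 10 ^ 30) := by rw [hK]; gcongr
      _ = 1 / 10 ^ 16 := by norm_num
  have hKη0 : 0 < K * η := by positivity
  have hK8 : 2 / K = 2 / 10 ^ 14 := by rw [hK]
  have hη2 : η ^ 2 ≤ η := by nlinarith
  have hη2' : 0 ≤ η ^ 2 := sq_nonneg η
  have hx := hpai n s r P Q (2 / K + 24 * η) (15 * η ^ 2 + 9 * K * η) hn1 ws wr (by positivity)
    (by positivity) hP1 hQ1 hP2 hQ2
  obtain ⟨hp1, hp2⟩ := hprj n s r S R P Q (K / n) (K / n) hn1 ws wr hc hP hQ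
  have hnn := hnuc n s r P Q K hn1 ws wr hK0 hr.lenV hP hQ
  obtain ⟨-, -, ht1, ht2, -⟩ := htig n s S η d hn hη0 hη1 hd hd' hs
  obtain ⟨-, -, -, ht2', -⟩ := htig n r R η d hn hη0 hη1 hd hd' hr
  -- the nuclear norm estimate
  have q1 : √(s.ex fun a i => ‖s.V a i - s.v a i‖ ^ 2) ≤ 4 * η := by
    rw [show 4 * η = √((4 * η) ^ 2) from (Real.sqrt_sq (by positivity)).symm]
    apply Real.sqrt_le_sqrt
    nlinarith
  have q2 : √(r.ex fun b j => ‖r.V b j - r.v b j‖ ^ 2) ≤ 4 * η := by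
    rw [show 4 * η = √((4 * η) ^ 2) from (Real.sqrt_sq (by positivity)).symm]
    apply Real.sqrt_le_sqrt
    nlinarith
  have q3 : √(s.ex fun a i => ‖s.V a i‖ ^ 2) ≤ 5 / 4 := by
    rw [show (5 / 4 : ℝ) = √((5 / 4) ^ 2) from (Real.sqrt_sq (by positivity)).symm]
    apply Real.sqrt_le_sqrt
    nlinarith
  have q4 : K * (√(s.ex fun a i => ‖s.V a i - s.v a i‖ ^ 2) +
        √(s.ex fun a i => ‖s.V a i‖ ^ 2) * √(r.ex fun b j => ‖r.V b j - r.v b j‖ ^ 2)) ≤
      9 * (K * η) := by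
    have h1 : √(s.ex fun a i => ‖s.V a i‖ ^ 2) * √(r.ex fun b j => ‖r.V b j - r.v b j‖ ^ 2) ≤
        5 / 4 * (4 * η) :=
      mul_le_mul q3 q2 (Real.sqrt_nonneg _) (by norm_num)
    calc K * (√(s.ex fun a i => ‖s.V a i - s.v a i‖ ^ 2) +
        √(s.ex fun a i => ‖s.V a i‖ ^ 2) * √(r.ex fun b j => ‖r.V b j - r.v b j‖ ^ 2))
        ≤ K * (4 * η + 5 / 4 * (4 * η)) := by gcongr
      _ = 9 * (K * η) := by ring
  have hnn' := (abs_le.mp (hnn.trans q4)).2
  -- moments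
  set x := ex2 s r (fun a i b j => A1 s r P Q a i b j ^ 2) with hxdef
  have hx1 : x ≤ 1 := by
    have := ex2_nonneg s r ws wr (F := fun a i b j => (AA s r a i b j - A1 s r P Q a i b j) ^ 2)
      (fun a i b j => sq_nonneg _)
    linarith
  have hs2 : 1 - 1 / 10 ^ 13 + 9 * (K * η) ≤ x := by
    have e1 : 9 * K * η = 9 * (K * η) := by ring
    rw [e1, hK8] at hx
    have h1 : 15 * η ^ 2 + 9 * (K * η) + 4 * (2 / 10 ^ 14 + 24 * η) + 9 * (K * η) ≤
        1 / 10 ^ 13 := by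
      have : η ^ 2 ≤ 1 / 10 ^ 30 := hη2.trans hηs
      have h3 : 15 * (1 / 10 ^ 30 : ℝ) + 9 * (1 / 10 ^ 16) +
          4 * (2 / 10 ^ 14 + 24 * (1 / 10 ^ 30)) + 9 * (1 / 10 ^ 16) ≤ 1 / 10 ^ 13 := by norm_num
      linarith
    linarith
  have eAB : ex2 s r (fun a i b j => A1 s r P Q a i b j * BB s r a i b j) =
      x - ex2 s r (fun a i b j => A1 s r P Q a i b j * (AA s r a i b j - BB s r a i b j)) := by
    rw [← hp1, ← ex2_sub]
    congr 1
    funext a i b j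
    ring
  have hAB : 1 - 1 / 10 ^ 13 ≤ ex2 s r (fun a i b j => A1 s r P Q a i b j * BB s r a i b j) := by
    rw [eAB]
    linarith
  obtain ⟨hX, hB, hY⟩ := hsec n s r S R η d (2 / 10 ^ 13) hn hη0 hη1 hd hd' hs hr hc
    (by positivity) (by norm_num)
  have hB1 : 1 - 2 / 10 ^ 13 ≤ ex2 s r (fun a i b j => BB s r a i b j ^ 2) := by
    have h1 := ex2_cs s r ws wr (A1 s r P Q) (BB s r)
    have h2 : 0 ≤ ex2 s r (fun a i b j => BB s r a i b j ^ 2) :=
      ex2_nonneg s r ws wr fun a i b j => sq_nonneg _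
    have h3 : x * ex2 s r (fun a i b j => BB s r a i b j ^ 2) ≤
        ex2 s r (fun a i b j => BB s r a i b j ^ 2) := by
      nlinarith
    have h4 : (1 - 1 / 10 ^ 13 : ℝ) ^ 2 ≤
        ex2 s r (fun a i b j => A1 s r P Q a i b j * BB s r a i b j) ^ 2 :=
      pow_le_pow_left₀ (by norm_num) hAB 2
    have h5 : (1 - 2 / 10 ^ 13 : ℝ) ≤ (1 - 1 / 10 ^ 13 : ℝ) ^ 2 := by norm_num
    linarith
  have hY' : 1 - 1 / 10 ^ 12 ≤ ex2 s r (fun a _ b _ => yy s r a b ^ 2) := by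
    have h1 := hY hB1
    have h2 : (2 / 10 ^ 13 + 2 * (1 / 10 ^ 30) : ℝ) ≤ 1 / 10 ^ 12 := by norm_num
    linarith
  -- the first absolute moment of `B`
  have hBabs : ex2 s r (fun a i b j => |BB s r a i b j|) ≤ 3 / 4 := by
    rcases le_total n (10 ^ 7) with h7 | h7
    · exact hsml n s r S R η d hn h7 hη0 (hηs.trans (by norm_num)) hd hd' hs hr hc hY'
    · have hu := hhcv n s r S R η d (1 / 1000) hn hη0 hη1 hd hd' hs hr hc
        (hηs.trans (by norm_num)) (by norm_num)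
        (by
          have : (1 - (1 / 1000) ^ 4 : ℝ) = 1 - 1 / 10 ^ 12 := by norm_num
          rw [this]
          exact hY')
      exact hhub n s r S R η d h7 hη0 (hηs.trans (by norm_num)) hd hd' hs hr hc hu
  -- conclusion
  have hA1 : ∀ a i b j, |AA s r a i b j| ≤ 1 := by
    intro a i b j
    have h1 := hc.pt a i b j
    have h2 : 0 < √(n : ℝ) := Real.sqrt_pos.mpr (by linarith)
    unfold AA
    rw [abs_mul, abs_of_pos h2]
    calc √(n : ℝ) * |inner ℝ (s.v a i) (r.v b j)| ≤ √(n : ℝ) * (1 / √(n : ℝ)) := by gcongr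
      _ = 1 := by field_simp
  have e2 : ex2 s r (fun a i b j => A1 s r P Q a i b j * BB s r a i b j) =
      ex2 s r (fun a i b j => AA s r a i b j * BB s r a i b j) -
      ex2 s r (fun a i b j => (AA s r a i b j - A1 s r P Q a i b j) * BB s r a i b j) := by
    rw [← ex2_sub]
    congr 1
    funext a i b j
    ring
  have h3 : ex2 s r (fun a i b j => AA s r a i b j * BB s r a i b j) ≤ 3 / 4 := by
    refine le_trans (ex2_mono s r ws wr fun a i b j => ?_) hBabs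
    calc AA s r a i b j * BB s r a i b j ≤ |AA s r a i b j * BB s r a i b j| := le_abs_self _
      _ = |AA s r a i b j| * |BB s r a i b j| := abs_mul _ _
      _ ≤ 1 * |BB s r a i b j| := by gcongr; exact hA1 a i b j
      _ = |BB s r a i b j| := one_mul _
  have h4 := (abs_le.mp (ex2_cs' s r ws wr
    (fun a i b j => AA s r a i b j - A1 s r P Q a i b j) (BB s r))).1
  have h5 : √(ex2 s r (fun a i b j => (AA s r a i b j - A1 s r P Q a i b j) ^ 2)) ≤ 1 / 100 := by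
    rw [show (1 / 100 : ℝ) = √((1 / 100) ^ 2) from (Real.sqrt_sq (by positivity)).symm]
    apply Real.sqrt_le_sqrt
    have : (1 / 10 ^ 13 : ℝ) ≤ (1 / 100) ^ 2 := by norm_num
    linarith
  have h6 : √(ex2 s r (fun a i b j => BB s r a i b j ^ 2)) ≤ 2 := by
    rw [show (2 : ℝ) = √(2 ^ 2) from (Real.sqrt_sq (by positivity)).symm]
    apply Real.sqrt_le_sqrt
    linarith
  have h7 : √(ex2 s r (fun a i b j => (AA s r a i b j - A1 s r P Q a i b j) ^ 2)) *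
      √(ex2 s r (fun a i b j => BB s r a i b j ^ 2)) ≤ 1 / 100 * 2 :=
    mul_le_mul h5 h6 (Real.sqrt_nonneg _) (by norm_num)
  have h8 : (1 - 1 / 10 ^ 13 : ℝ) > 3 / 4 + 1 / 100 * 2 := by norm_num
  linarith

end Pool.Agent.PJC.H5
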