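import Pool.Agent.PJC.Stmts

/-!
# Row MAI of squad PJC: the main theorem
-/

set_option autoImplicit false

namespace Pool.Agent.PJC.H5

open Pool.Agent.PJC

theorem mai (htrn : TrnStmt) (hsid : SidStmt) (hfin : FinStmt) : MaiStmt := by
  intro n hn
  by_contra hcon
  rw [not_le] at hcon
  have hn0 : (4 : ℝ) ≤ n := by exact_mod_cast hn
  have hn1 : (0 : ℝ) < n := by linarith
  set ε : ℝ := (2 + (1 / 10 ^ 30 : ℝ) ^ 4) / n with hε
  have heq : (2 + 1 / 10 ^ 120 : ℝ) / n = ε := by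
    rw [hε]
    norm_num
  rw [heq] at hcon
  have hε0 : 0 < ε := by
    rw [hε]
    positivity
  have hε1 : ε < 1 := by
    rw [hε, div_lt_one hn1]
    have : (2 + (1 / 10 ^ 30 : ℝ) ^ 4) < 4 := by norm_num
    linarith
  obtain ⟨p, q, hd, h1, h2, hb⟩ := htrn n ε (by omega) hε0 hε1 hcon
  set d : ℝ := ((1 / 10 ^ 30 : ℝ)) ^ 4 / (n : ℝ) ^ 3 with hdd
  have hd0 : 0 < d := by
    rw [hdd]
    positivity
  obtain ⟨s, r, S, R, hs, hr, hc⟩ := hsid n p q ε d (by omega) hd h1 h2 hε0 hε1 hb hd0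
  exact hfin n s r S R d hn hd0.le le_rfl hs hr hc

end Pool.Agent.PJC.H5
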